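import Pool.Agent.H22.VGH.Ge

/-! Row JQN (T_JQN, T_JQB) of the board `vgh_modules`. -/

set_option autoImplicit false

namespace Pool.Agent.H22.VGH

open SC Pool.Agent.H27.LV Pool.Agent.H30.VGH Polynomial

theorem pf_JQB : T_JQB := by
  intro k K _ _ _ _ v a r p z ha hp
  have hH : Cge v (-(2 * a)) (hes r p) := by
    unfold hes
    refine csub ?_ ?_
    · exact cmono (cmul (cmul (cnat r) hp) (cder (cder hp))) (by omega)
    · have h1 : Cge v 0 ((r : K[X]) - 1) := by
        have h := csub (cnat (v := v) r) (cnat (v := v) 1)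
        simpa using h
      exact cmono (cmul h1 (cpow (cder hp) 2)) (by push_cast; omega)
  have hJ : Cge v (-(3 * a)) (jac r p) := by
    unfold jac
    refine csub ?_ ?_
    · exact cmono (cmul (cmul (cnat r) hp) (cder hH)) (by omega)
    · have h1 : Cge v 0 (2 * (r : K[X]) - 4) := by
        have h := csub (cmul (cnat (v := v) 2) (cnat (v := v) r)) (cnat (v := v) 4)
        simpa using h
      exact cmono (cmul (cmul h1 (cder hp)) hH) (by omega)
  refine ⟨cmono hH (by omega), csub ?_ ?_⟩
  · exact cmono (cpow hJ 2) (by push_cast; omega)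
  · exact cmono (cmul (cC (gconst z)) (cpow hH 3)) (by push_cast; omega)

theorem pf_JQN : T_JQN := by
  intro K _ _ r p z hr hp hd hcop hz
  have hr0 : (r : K) ≠ 0 := Nat.cast_ne_zero.2 (by omega)
  have hr1 : (r : K) - 1 ≠ 0 := by
    have h : ((r - 1 : ℕ) : K) ≠ 0 := Nat.cast_ne_zero.2 (by omega)
    rwa [Nat.cast_sub (by omega), Nat.cast_one] at h
  have hr2 : 2 * (r : K) - 4 ≠ 0 := by
    have h : ((2 * r - 4 : ℕ) : K) ≠ 0 := Nat.cast_ne_zero.2 (by omega)
    rw [Nat.cast_sub (by omega)] at h
    push_cast at h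
    exact h
  have hcr : (r : K[X]) = C (r : K) := by simp
  have hc1 : (r : K[X]) - 1 = C ((r : K) - 1) := by simp
  have hc2 : 2 * (r : K[X]) - 4 = C (2 * (r : K) - 4) := by
    simp only [C_sub, C_mul, map_natCast, map_ofNat]
  have hpu : ¬ IsUnit p := by
    intro h
    have := natDegree_eq_zero_of_isUnit h
    omega
  have hcH : IsCoprime p (hes r p) := by
    have h1 : IsCoprime p (C (-((r : K) - 1)) * derivative p ^ 2) :=
      (isCoprime_mul_unit_left_right (isUnit_C.2 (neg_ne_zero.2 hr1).isUnit) _ _).2
        (hcop.pow_right)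
    have h2 := h1.add_mul_left_right (C (r : K) * derivative (derivative p))
    have h3 : C (-((r : K) - 1)) * derivative p ^ 2 +
        p * (C (r : K) * derivative (derivative p)) = hes r p := by
      unfold hes
      rw [hc1, hcr, C_neg]
      ring
    rwa [h3] at h2
  have hH0 : hes r p ≠ 0 := by
    intro h0
    rw [h0] at hcH
    exact hpu (isCoprime_zero_right.1 hcH)
  refine ⟨hH0, fun heq => ?_⟩
  obtain ⟨w, rfl⟩ := hz
  by_cases hw : w = 0
  · subst hw
    have hJ : jac r p = 0 := by
      have h1 : jac r p ^ 2 = 0 := by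
        rw [mul_zero, C_0, zero_mul, sub_zero] at heq
        exact heq
      exact pow_eq_zero_iff (two_ne_zero) |>.1 h1
    have h1 : p ∣ C (2 * (r : K) - 4) * derivative p * hes r p := by
      refine ⟨C (r : K) * derivative (hes r p), ?_⟩
      have h2 := hJ
      unfold jac at h2
      rw [hc2, hcr] at h2
      linear_combination -h2
    have h2 : p ∣ C (2 * (r : K) - 4) * derivative p := hcH.dvd_of_dvd_mul_right h1
    have h3 : p ∣ C (2 * (r : K) - 4) := hcop.dvd_of_dvd_mul_right h2
    exact hpu (isUnit_of_dvd_unit h3 (isUnit_C.2 hr2.isUnit))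
  · have hJ2 : jac r p ^ 2 = C (w * w) * hes r p ^ 3 := sub_eq_zero.1 heq
    have h1 : hes r p ∣ jac r p := by
      rw [← IsIntegrallyClosed.pow_dvd_pow_iff (n := 2) two_ne_zero]
      exact ⟨C (w * w) * hes r p, by rw [hJ2]; ring⟩
    obtain ⟨s, hs⟩ := h1
    have hs2 : s ^ 2 = C (w * w) * hes r p := by
      have h2 : hes r p ^ 2 ≠ 0 := pow_ne_zero _ hH0
      apply mul_left_cancel₀ h2
      rw [hs] at hJ2
      linear_combination hJ2
    set g : K[X] := C w⁻¹ * s with hg
    have hww : C w * C w⁻¹ = (1 : K[X]) := by rw [← C_mul, mul_inv_cancel₀ hw, C_1]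
    have hsg : s = C w * g := by
      rw [hg, ← mul_assoc, hww, one_mul]
    have hg2 : g ^ 2 = hes r p := by
      rw [hg, mul_pow, hs2, C_mul]
      linear_combination (hes r p * (C w * C w⁻¹ + 1)) * hww
    have hg0 : g ≠ 0 := by
      intro h
      rw [h] at hg2
      apply hH0
      rw [← hg2]
      ring
    have hJg : jac r p = C w * g ^ 3 := by
      rw [hs, hsg, ← hg2]
      ring
    have hdH : derivative (hes r p) = 2 * g * derivative g := by
      rw [← hg2, pow_two, derivative_mul]
      ring
    have hmain : C (2 * (r : K)) * (p * derivative g) =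
        g * (C w * g + C (2 * (r : K) - 4) * derivative p) := by
      apply mul_left_cancel₀ hg0
      have h3 := hJg
      unfold jac at h3
      rw [hc2, hcr, hdH, ← hg2] at h3
      have h4 : C (2 * (r : K)) = (2 : K[X]) * C (r : K) := by
        rw [C_mul, C_ofNat]
      rw [h4]
      linear_combination h3
    have hcg : IsCoprime g p := by
      rw [← hg2] at hcH
      exact ((IsCoprime.pow_right_iff (by norm_num)).1 hcH).symm
    have h5 : g ∣ derivative g := by
      have h6 : g ∣ C (2 * (r : K)) * (p * derivative g) := ⟨_, hmain⟩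
      have h7 : IsCoprime g (C (2 * (r : K)) * p) :=
        (isCoprime_mul_unit_left_right (isUnit_C.2 (mul_ne_zero two_ne_zero hr0).isUnit) _ _).2 hcg
      rw [← mul_assoc] at h6
      exact h7.dvd_of_dvd_mul_left h6
    have hg' : derivative g = 0 := by
      by_contra hne
      have h6 := degree_le_of_dvd h5 hne
      exact absurd h6 (not_le.2 (degree_derivative_lt hg0))
    rw [hg', mul_zero, mul_zero] at hmain
    have h6 : C w * g + C (2 * (r : K) - 4) * derivative p = 0 :=
      (mul_eq_zero.1 hmain.symm).resolve_left hg0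
    have h7 : derivative p = C (-(2 * (r : K) - 4)⁻¹ * w) * g := by
      have h8 : C (2 * (r : K) - 4)⁻¹ * C (2 * (r : K) - 4) = (1 : K[X]) := by
        rw [← C_mul, inv_mul_cancel₀ hr2, C_1]
      rw [C_mul, C_neg]
      linear_combination C (2 * (r : K) - 4)⁻¹ * h6 - derivative p * h8
    have h8 : g.natDegree = 0 := derivative_eq_zero.1 hg'
    have h9 : (derivative p).natDegree = 0 := by
      rw [h7]
      refine Nat.le_zero.1 ((natDegree_C_mul_le _ _).trans h8.le)
    have h10 : (derivative p).natDegree = r - 1 := by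
      have h11 := degree_derivative (by omega : p.natDegree ≠ 0)
      rw [hd] at h11
      exact natDegree_eq_of_degree_eq_some h11
    omega

end Pool.Agent.H22.VGH
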