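import Pool.Agent.H22.VGH.Ge

/-! Row MLO (T_MLO from T_EVA, T_LED, T_CDP) of the board `vgh_modules`. -/

set_option autoImplicit false

namespace Pool.Agent.H22.VGH

open SC Pool.Agent.H27.LV Pool.Agent.H30.VGH Polynomial

/-- the trivial bound for `D τ` -/
theorem dtau {k K : Type} [Field k] [Field K] [Algebra k K] {v : DV k K}
    {D : Derivation k K K} {δ : ℤ} (hD : DOrd v D δ) (τ : K) :
    ge v (δ - 2 * pe v τ) (D τ) := by
  have he := pe_nonneg (v := v) τ
  by_cases h0 : 0 ≤ v.ord τ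
  · exact gmono (hD.1 τ h0) (by omega)
  · have hτ : τ ≠ 0 := by
      rintro rfl
      exact h0 (by rw [v.ord_zero])
    have h1 := neg_ord_le_pe (v := v) τ
    refine gmono (hD.2 τ hτ) ?_
    omega

theorem pf_MLO (hEVA : T_EVA) (hLED : T_LED) (hCDP : T_CDP) : T_MLO := by
  intro k K _ _ _ v D δ hD r p A B E B₁ ρ τ a hr ha hp hd hpa hpτ hρ hρa hA hB hAB hAa hBa hE hB1
    hEB hEa hB1a
  obtain ⟨-, -, -, -, hch, -⟩ := hCDP k K D
  have hr' : (3 : ℤ) ≤ r := by exact_mod_cast hr
  have he := pe_nonneg (v := v) τ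
  set e := pe v τ with hedef
  have hra : 3 * a ≤ (r : ℤ) * a := by nlinarith
  have hre : 3 * e ≤ (r : ℤ) * e := by nlinarith
  have hs : -(2 * r * a) ≤ v.ord ρ := hρa.resolve_left hρ
  have hlam : -a - r * e ≤ v.ord (p.eval τ) :=
    (hEVA k K v (-a) r p τ hd.le hpa).resolve_left hpτ
  -- the trivial bound
  have htriv : ge v (δ - (2 * r + 2) * a - (r - 1) * e) (ρ * D τ - B₁.eval τ) := by
    refine gsub ?_ ?_
    · refine gmono (gmul hρa (dtau hD τ)) ?_
      rw [← hedef]
      nlinarith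
    · have h1 := hEVA k K v _ (r - 1) B₁ τ hB1 hB1a
      refine gmono h1 ?_
      rw [Nat.cast_sub (by omega), Nat.cast_one, ← hedef]
  have hcase0 : max 0 (v.ord (p.eval τ) + a + r * e - 1) ≤
      (v.ord ρ + 2 * r * a) + (3 * r - 2) * a →
      ge v (δ - (r - 1) * e + max 0 (v.ord (p.eval τ) + a + r * e - 1)
        - (v.ord ρ + 2 * r * a) - 5 * r * a) (ρ * D τ - B₁.eval τ) := fun h =>
    gmono htriv (by nlinarith)
  by_cases hea : a < e
  · -- (1)
    apply hcase0
    have h1 := hLED k K v (-a) p τ hp.ne_zero hpa (by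
      rw [hp.leadingCoeff, v.ord_one, ← hedef]
      omega)
    rw [h1.2, hp.leadingCoeff, v.ord_one, hd, ← hedef]
    refine max_le ?_ ?_
    · nlinarith
    · nlinarith
  have hea' : e ≤ a := not_lt.1 hea
  have hre' : ((r : ℤ) - 1) * e ≤ (r - 1) * a :=
    mul_le_mul_of_nonneg_left hea' (by omega)
  by_cases hl : v.ord (p.eval τ) + a + r * e ≤ (v.ord ρ + 2 * r * a) + a + (2 * r - 2) * e
  · apply hcase0
    refine max_le ?_ ?_
    · nlinarith
    · nlinarith
  have hl' : (v.ord ρ + 2 * r * a) + a + (2 * r - 2) * e < v.ord (p.eval τ) + a + r * e :=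
    not_le.1 hl
  -- the values
  have hAτ : ge v (-(2 * r * a) - (r - 2) * e) (A.eval τ) := by
    refine gmono (hEVA k K v _ (r - 2) A τ hA hAa) ?_
    rw [Nat.cast_sub (by omega), ← hedef]
    push_cast
    exact le_rfl
  have hBτ : ge v (-(2 * r * a) - (r - 1) * e) (B.eval τ) := by
    refine gmono (hEVA k K v _ (r - 1) B τ hB hBa) ?_
    rw [Nat.cast_sub (by omega), Nat.cast_one, ← hedef]
  have hEτ : ge v (δ - (2 * r + 2) * a - (r - 2) * e) (E.eval τ) := by
    refine gmono (hEVA k K v _ (r - 2) E τ hE hEa) ?_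
    rw [Nat.cast_sub (by omega), ← hedef]
    push_cast
    exact le_rfl
  have hpt : ge v (v.ord (p.eval τ)) (p.eval τ) := gord
  have hid : (derivative p).eval τ * (ρ * D τ - B₁.eval τ) =
      ρ * D (p.eval τ) + E.eval τ * p.eval τ := by
    have h1 := congrArg (fun f : K[X] => f.eval τ) hEB
    simp only [eval_add, eval_mul, eval_neg, eval_C] at h1
    rw [hch]
    linear_combination -h1
  have hprod : ge v (δ + (v.ord (p.eval τ) + a + r * e) - 1 - (2 * r + 3) * a - (2 * r - 2) * e)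
      ((derivative p).eval τ * (ρ * D τ - B₁.eval τ)) := by
    rw [hid]
    refine gadd ?_ ?_
    · refine gmono (gmul hρa (hD.2 _ hpτ)) ?_
      nlinarith
    · refine gmono (gmul hEτ hpt) ?_
      nlinarith
  have hAp : ge v (v.ord ρ + 1) (A.eval τ * p.eval τ) := by
    refine gmono (gmul hAτ hpt) ?_
    nlinarith
  have hBp : B.eval τ * (derivative p).eval τ = ρ + -(A.eval τ * p.eval τ) := by
    have h1 := congrArg (fun f : K[X] => f.eval τ) hAB
    simp only [eval_add, eval_mul, eval_C] at h1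
    linear_combination h1
  have hord : B.eval τ * (derivative p).eval τ ≠ 0 ∧
      v.ord (B.eval τ * (derivative p).eval τ) = v.ord ρ := by
    rw [hBp]
    refine v.ord_add_eq_left hρ fun h => ?_
    have h2 : A.eval τ * p.eval τ ≠ 0 := fun h0 => h (by rw [h0, neg_zero])
    have h3 := hAp.resolve_left h2
    rw [v.ord_neg]
    omega
  obtain ⟨hB0, hp0⟩ := mul_ne_zero_iff.1 hord.1
  have hordp : v.ord ((derivative p).eval τ) ≤ (v.ord ρ + 2 * r * a) + (r - 1) * e := by
    have h1 := hBτ.resolve_left hB0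
    have h2 := hord.2
    rw [v.ord_mul' hB0 hp0] at h2
    linarith
  by_cases hΩ : ρ * D τ - B₁.eval τ = 0
  · exact Or.inl hΩ
  right
  have h1 := hprod.resolve_left (mul_ne_zero hp0 hΩ)
  rw [v.ord_mul' hp0 hΩ] at h1
  have h2 : max 0 (v.ord (p.eval τ) + a + r * e - 1) = v.ord (p.eval τ) + a + r * e - 1 := by
    apply max_eq_right
    nlinarith
  rw [h2]
  nlinarith

end Pool.Agent.H22.VGH
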