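import Pool.Agent.H22.VGH.Ge

/-! Rows PMA (T_EVA, T_LED, T_GAU) of the board `vgh_modules`. -/

set_option autoImplicit false

namespace Pool.Agent.H22.VGH

open SC Pool.Agent.H27.LV Pool.Agent.H30.VGH Polynomial

/-- the sum of the first `N` terms of a polynomial with bounded coefficients -/
theorem geval_sum {k K : Type} [Field k] [Field K] [Algebra k K] (v : DV k K) (m : ℤ)
    (N M : ℕ) (c : ℕ → K) (τ : K) (hM : M ≤ N + 1) (hc : ∀ i, ge v m (c i)) :
    ge v (m - N * pe v τ) (∑ i ∈ Finset.range M, c i * τ ^ i) := by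
  refine gsum _ _ _ fun i hi => ?_
  refine gmono (gmul (hc i) (gpow τ i)) ?_
  have h1 := pe_nonneg (v := v) τ
  have h2 : (i : ℤ) ≤ N := by
    have := Finset.mem_range.1 hi
    omega
  nlinarith

theorem pf_EVA : T_EVA := by
  intro k K _ _ _ v m N p τ hN hp
  rw [eval_eq_sum_range' (Nat.lt_succ_of_le hN)]
  exact geval_sum v m N _ _ τ le_rfl hp

theorem pf_LED : T_LED := by
  intro k K _ _ _ v m p τ hp hc hl
  have hlc : p.leadingCoeff ≠ 0 := leadingCoeff_ne_zero.2 hp
  have hm : m ≤ v.ord p.leadingCoeff := (hc p.natDegree).resolve_left hlc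
  have hpe : 0 < pe v τ := by omega
  have hτo : pe v τ = -(v.ord τ) := by
    rcases max_choice 0 (-(v.ord τ)) with h | h
    · unfold pe at hpe
      omega
    · exact h
  have hτ : τ ≠ 0 := by
    rintro rfl
    rw [hτo, v.ord_zero] at hpe
    simp at hpe
  have hlead : v.ord (p.leadingCoeff * τ ^ p.natDegree) =
      v.ord p.leadingCoeff - p.natDegree * pe v τ := by
    rw [v.ord_mul' hlc (pow_ne_zero _ hτ), v.ord_pow, hτo]
    ring
  have hlead0 : p.leadingCoeff * τ ^ p.natDegree ≠ 0 := mul_ne_zero hlc (pow_ne_zero _ hτ)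
  rw [eval_eq_sum_range, Finset.sum_range_succ]
  by_cases hs : ∑ i ∈ Finset.range p.natDegree, p.coeff i * τ ^ i = 0
  · rw [hs, zero_add]
    exact ⟨hlead0, hlead⟩
  · have h1 : v.ord p.leadingCoeff - p.natDegree * pe v τ <
        v.ord (∑ i ∈ Finset.range p.natDegree, p.coeff i * τ ^ i) := by
      have hN : p.natDegree ≠ 0 := by
        intro h0
        rw [h0, Finset.range_zero, Finset.sum_empty] at hs
        exact hs rfl
      obtain ⟨N, hN⟩ := Nat.exists_eq_succ_of_ne_zero hN
      have h2 := (geval_sum v m N p.natDegree p.coeff τ (by omega) hc).resolve_left hs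
      have h3 : (p.natDegree : ℤ) = N + 1 := by rw [hN]; push_cast; ring
      rw [h3]
      nlinarith
    rw [← hlead] at h1
    constructor
    · intro h0
      have h3 : ∑ i ∈ Finset.range p.natDegree, p.coeff i * τ ^ i =
          -(p.leadingCoeff * τ ^ p.natDegree) := by
        rw [leadingCoeff]
        linear_combination h0
      rw [h3, v.ord_neg] at h1
      exact lt_irrefl _ h1
    · rw [add_comm, ← hlead]
      exact (v.ord_add_eq_left hlead0 fun _ => h1).2

/-- the least index at which the minimal order of the coefficients is attained -/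
theorem exists_min_coeff {k K : Type} [Field k] [Field K] [Algebra k K] (v : DV k K) {f : K[X]}
    (hf : f ≠ 0) : ∃ i₀, f.coeff i₀ ≠ 0 ∧ (∀ i, ge v (v.ord (f.coeff i₀)) (f.coeff i)) ∧
      ∀ i < i₀, ge v (v.ord (f.coeff i₀) + 1) (f.coeff i) := by
  classical
  obtain ⟨j, hj, hmin⟩ := Finset.exists_min_image f.support (fun i => v.ord (f.coeff i))
    (support_nonempty.2 hf)
  have hex : ∃ i, f.coeff i ≠ 0 ∧ v.ord (f.coeff i) = v.ord (f.coeff j) :=
    ⟨j, mem_support_iff.1 hj, rfl⟩
  obtain ⟨h0, h1⟩ := Nat.find_spec hex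
  refine ⟨Nat.find hex, h0, fun i => ?_, fun i hi => ?_⟩
  · by_cases h : f.coeff i = 0
    · exact Or.inl h
    · right
      rw [h1]
      exact hmin i (mem_support_iff.2 h)
  · by_cases h : f.coeff i = 0
    · exact Or.inl h
    · right
      have h2 := hmin i (mem_support_iff.2 h)
      have h3 := Nat.find_min hex hi
      rw [h1]
      have h4 : v.ord (f.coeff i) ≠ v.ord (f.coeff j) := fun h5 => h3 ⟨h, h5⟩
      have h5 : v.ord (f.coeff j) ≤ v.ord (f.coeff i) := h2
      omega

theorem pf_GAU : T_GAU := by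
  classical
  intro k K _ _ _ v a G p hG hp hc
  obtain ⟨i₀, hi0, hi1, hi2⟩ := exists_min_coeff v hG.ne_zero
  obtain ⟨j₀, hj0, hj1, hj2⟩ := exists_min_coeff v hp.ne_zero
  have hGle : v.ord (G.coeff i₀) ≤ 0 := by
    have h := (hi1 G.natDegree).resolve_left (by rw [hG.coeff_natDegree]; exact one_ne_zero)
    rwa [hG.coeff_natDegree, v.ord_one] at h
  have hple : v.ord (p.coeff j₀) ≤ 0 := by
    have h := (hj1 p.natDegree).resolve_left (by rw [hp.coeff_natDegree]; exact one_ne_zero)
    rwa [hp.coeff_natDegree, v.ord_one] at h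
  have hkey : -a ≤ v.ord (G.coeff i₀) + v.ord (p.coeff j₀) := by
    have h1 := hc (i₀ + j₀)
    rw [coeff_mul, ← Finset.add_sum_erase _ _
      (Finset.HasAntidiagonal.mem_antidiagonal.2 rfl : (i₀, j₀) ∈ Finset.HasAntidiagonal.antidiagonal (i₀ + j₀))] at h1
    have h2 : ge v (v.ord (G.coeff i₀) + v.ord (p.coeff j₀) + 1)
        (∑ x ∈ (Finset.HasAntidiagonal.antidiagonal (i₀ + j₀)).erase (i₀, j₀), G.coeff x.1 * p.coeff x.2) := by
      refine gsum _ _ _ fun x hx => ?_
      obtain ⟨hne, hmem⟩ := Finset.mem_erase.1 hx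
      have hsum := Finset.HasAntidiagonal.mem_antidiagonal.1 hmem
      rcases lt_trichotomy x.1 i₀ with h | h | h
      · exact gmono (gmul (hi2 _ h) (hj1 _)) (by omega)
      · exfalso
        apply hne
        ext
        · exact h
        · change x.2 = j₀
          omega
      · exact gmono (gmul (hi1 _) (hj2 _ (by omega))) (by omega)
    have hprod : v.ord (G.coeff i₀ * p.coeff j₀) =
        v.ord (G.coeff i₀) + v.ord (p.coeff j₀) := v.ord_mul' hi0 hj0
    by_contra hlt
    have h3 : ge v (v.ord (G.coeff i₀) + v.ord (p.coeff j₀) + 1)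
        (G.coeff i₀ * p.coeff j₀) := by
      have h4 := gsub (gmono h1 (by omega :
        v.ord (G.coeff i₀) + v.ord (p.coeff j₀) + 1 ≤ -a)) h2
      rwa [add_sub_cancel_right] at h4
    have h4 := h3.resolve_left (mul_ne_zero hi0 hj0)
    omega
  exact ⟨fun i => gmono (hi1 i) (by omega), fun i => gmono (hj1 i) (by omega)⟩

end Pool.Agent.H22.VGH
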