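import Pool.Agent.H22.VGH.Ge

/-! Row RIC (T_RIC from T_CDP) of the board `vgh_modules`. -/

set_option autoImplicit false

namespace Pool.Agent.H22.VGH

open SC Pool.Agent.H27.LV Pool.Agent.H30.VGH Polynomial

theorem ric_deg {K : Type} [Field K] (r : ℕ) (p c e q : K[X]) (hr : 1 ≤ r)
    (hp : p.Monic) (hd : p.natDegree = r) (hc : c.natDegree ≤ 2) (hq : q.degree < r)
    (h : q + c * derivative p = e * p) :
    derivative (derivative e) = 0 ∧ 2 * derivative e = (r : K[X]) * derivative (derivative c) := by
  have hp' : (derivative p).natDegree ≤ r - 1 := by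
    rw [← hd]; exact natDegree_derivative_le p
  have hlhs : (q + c * derivative p).natDegree ≤ r + 1 := by
    refine natDegree_add_le_of_degree_le ?_ ?_
    · exact (natDegree_le_of_degree_le (hq.le)).trans (by omega)
    · refine natDegree_mul_le.trans ?_
      omega
  have he : e.natDegree ≤ 1 := by
    by_cases h0 : e = 0
    · rw [h0]; simp
    · rw [h, natDegree_mul h0 hp.ne_zero, hd] at hlhs
      omega
  have h1 : e.coeff 1 = r * c.coeff 2 := by
    have h2 : (e * p).coeff (1 + r) = e.coeff 1 * p.coeff r :=
      coeff_mul_add_eq_of_natDegree_le he hd.le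
    have h3 : (c * derivative p).coeff (2 + (r - 1)) = c.coeff 2 * (derivative p).coeff (r - 1) :=
      coeff_mul_add_eq_of_natDegree_le hc hp'
    have h4 : (2 + (r - 1)) = 1 + r := by omega
    have h5 : (derivative p).coeff (r - 1) = r := by
      rw [coeff_derivative]
      obtain ⟨s, rfl⟩ := Nat.exists_eq_succ_of_ne_zero (by omega : r ≠ 0)
      have h6 : p.coeff (s + 1) = 1 := by
        have := hp.coeff_natDegree
        rwa [hd] at this
      simp [h6]
    have h6 : p.coeff r = 1 := by
      have := hp.coeff_natDegree
      rwa [hd] at this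
    have h7 : q.coeff (1 + r) = 0 := by
      apply coeff_eq_zero_of_degree_lt
      refine hq.trans ?_
      exact_mod_cast (by omega : r < 1 + r)
    have h8 : (q + c * derivative p).coeff (1 + r) = e.coeff 1 := by
      rw [h, h2, h6, mul_one]
    rw [coeff_add, h7, zero_add, ← h4, h3, h5] at h8
    rw [← h8, mul_comm]
  constructor
  · ext i
    rw [coeff_derivative, coeff_derivative, coeff_eq_zero_of_natDegree_lt (by omega)]
    simp
  · ext i
    have h2 : (2 : K[X]) = C (2 : K) := (C_ofNat 2).symm
    have h3 : (r : K[X]) = C (r : K) := by simp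
    rw [h2, h3, coeff_C_mul, coeff_C_mul, coeff_derivative, coeff_derivative, coeff_derivative]
    rcases Nat.eq_zero_or_pos i with rfl | hi
    · simp only [zero_add, Nat.cast_zero, mul_one, Nat.cast_one]
      rw [h1]
      ring
    · rw [coeff_eq_zero_of_natDegree_lt (by omega : e.natDegree < i + 1),
        coeff_eq_zero_of_natDegree_lt (by omega : c.natDegree < i + 1 + 1)]
      ring

theorem pf_RIC (hCDP : T_CDP) : T_RIC := by
  intro k K _ _ _ _ D hker r p c e τ hr hp hd hc hLL hτ
  obtain ⟨hco, hadd, hmul, hder, hch, -⟩ := hCDP k K D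
  have hdeg : (cD D p).degree < r := by
    rw [degree_lt_iff_coeff_zero]
    intro i hi
    rw [hco]
    rcases Nat.eq_or_lt_of_le hi with h | h
    · rw [← h]
      have h1 : p.coeff r = 1 := by
        have := hp.coeff_natDegree
        rwa [hd] at this
      rw [h1]
      exact D.map_one_eq_zero
    · rw [coeff_eq_zero_of_natDegree_lt (by omega), map_zero]
  obtain ⟨he2, he1⟩ := ric_deg r p c e (cD D p) hr hp hd hc hdeg hLL
  have hnat : ∀ n : ℕ, cD D (n : K[X]) = 0 := by
    intro n
    ext i
    rw [hco, coeff_zero]
    have h1 : (n : K[X]) = C (n : K) := by simp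
    rw [h1, coeff_C]
    split_ifs
    · exact D.map_natCast n
    · exact map_zero D
  set LL : K[X] → K[X] := fun f => cD D f + c * derivative f with hLLdef
  have Ladd : ∀ f g, LL (f + g) = LL f + LL g := by
    intro f g
    simp only [hLLdef, hadd, derivative_add]
    ring
  have Lmul : ∀ f g, LL (f * g) = LL f * g + f * LL g := by
    intro f g
    simp only [hLLdef, hmul, derivative_mul]
    ring
  have Lder : ∀ f, LL (derivative f) = derivative (LL f) - derivative c * derivative f := by
    intro f
    simp only [hLLdef, hder, derivative_add, derivative_mul]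
    ring
  have Lnat : ∀ n : ℕ, LL (n : K[X]) = 0 := by
    intro n
    simp only [hLLdef, hnat, derivative_natCast, mul_zero, add_zero]
  have Lsub : ∀ f g, LL (f - g) = LL f - LL g := by
    intro f g
    have h := Ladd (f - g) g
    rw [sub_add_cancel] at h
    rw [h]
    ring
  have Leval : ∀ f : K[X], D (f.eval τ) = (LL f).eval τ := by
    intro f
    rw [hch, hτ]
    simp only [hLLdef, eval_add, eval_mul]
    ring
  have L0 : LL p = e * p := hLL
  have L1 : LL (derivative p) = (e - derivative c) * derivative p + derivative e * p := by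
    rw [Lder, L0, derivative_mul]
    ring
  have L2 : LL (derivative (derivative p)) = (e - 2 * derivative c) * derivative (derivative p) +
      (2 * derivative e - derivative (derivative c)) * derivative p := by
    rw [Lder, L1]
    simp only [derivative_add, derivative_mul, derivative_sub, he2]
    ring
  have Lr : LL (r : K[X]) = 0 := Lnat r
  have Lr1 : LL ((r : K[X]) - 1) = 0 := by
    rw [Lsub, Lr]
    have := Lnat 1
    rw [Nat.cast_one] at this
    rw [this, sub_zero]
  have Lr2 : LL (2 * (r : K[X]) - 4) = 0 := by
    have h2 : LL (2 : K[X]) = 0 := by exact_mod_cast Lnat 2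
    have h4 : LL (4 : K[X]) = 0 := by exact_mod_cast Lnat 4
    rw [Lsub, Lmul, Lr, h2, h4]
    ring
  have Lq : LL (hes r p) = 2 * (e - derivative c) * hes r p := by
    unfold hes
    rw [Lsub, Lmul, Lmul, Lmul, pow_two, Lmul, Lr, Lr1, L0, L1, L2]
    linear_combination (p * derivative p) * he1
  have Lq' : LL (derivative (hes r p)) = 2 * (derivative e - derivative (derivative c)) * hes r p +
      (2 * e - 3 * derivative c) * derivative (hes r p) := by
    rw [Lder, Lq]
    simp only [derivative_mul, derivative_sub, derivative_ofNat]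
    ring
  have Lj : LL (jac r p) = 3 * (e - derivative c) * jac r p := by
    unfold jac
    rw [Lsub, Lmul, Lmul, Lmul, Lmul, Lr, Lr2, L0, L1, Lq, Lq']
    linear_combination (2 * p * hes r p) * he1
  by_cases hQ : (hes r p).eval τ = 0
  · exact Or.inl hQ
  right
  set Q := (hes r p).eval τ with hQdef
  set J := (jac r p).eval τ with hJdef
  set lam := (e - derivative c).eval τ with hlam
  have DQ : D Q = 2 * lam * Q := by
    rw [hQdef, Leval, Lq]
    simp only [eval_mul, eval_ofNat]
    rfl
  have DJ : D J = 3 * lam * J := by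
    rw [hJdef, Leval, Lj]
    simp only [eval_mul, eval_ofNat]
    rfl
  set u := J ^ 2 / Q ^ 3 with hu
  have huQ : u * (Q * (Q * Q)) = J * J := by
    rw [hu]
    field_simp
  have hDu : D u = 0 := by
    have h1 := congrArg D huQ
    simp only [Derivation.leibniz, smul_eq_mul, DQ, DJ] at h1
    have h2 : Q * (Q * Q) * D u = 0 := by
      linear_combination h1 - 6 * lam * huQ
    exact (mul_eq_zero.1 h2).resolve_left (mul_ne_zero hQ (mul_ne_zero hQ hQ))
  obtain ⟨z, hz⟩ := hker u hDu
  refine ⟨z, ?_⟩
  rw [eval_sub, eval_mul, eval_pow, eval_pow, eval_C, hz]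
  linear_combination -huQ

end Pool.Agent.H22.VGH
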