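import Pool.Agent.H30.VGH.Targets
import Pool.Agent.H64.SC.Api

/-! Basic lemmas on `ge`, `Cge`, `pe` for the board `vgh_modules`. -/

set_option autoImplicit false

namespace Pool.Agent.H22.VGH

open SC Pool.Agent.H27.LV Pool.Agent.H30.VGH Polynomial

variable {k K : Type} [Field k] [Field K] [Algebra k K] {v : DV k K}

theorem gadd {t : ℤ} {x y : K} (hx : ge v t x) (hy : ge v t y) : ge v t (x + y) := by
  by_cases h : x + y = 0
  · exact Or.inl h
  right
  refine v.ord_add_ge (fun h0 => ?_) (fun h0 => ?_) h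
  · exact hx.resolve_left h0
  · exact hy.resolve_left h0

theorem gneg {t : ℤ} {x : K} (hx : ge v t x) : ge v t (-x) := by
  rcases hx with h | h
  · left; rw [h, neg_zero]
  · right; rw [v.ord_neg]; exact h

theorem gsub {t : ℤ} {x y : K} (hx : ge v t x) (hy : ge v t y) : ge v t (x - y) := by
  rw [sub_eq_add_neg]
  exact gadd hx (gneg hy)

theorem gmul {s t : ℤ} {x y : K} (hx : ge v s x) (hy : ge v t y) : ge v (s + t) (x * y) := by
  rcases hx with h | h
  · left; rw [h, zero_mul]
  rcases hy with h' | h'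
  · left; rw [h', mul_zero]
  by_cases hx0 : x = 0
  · left; rw [hx0, zero_mul]
  by_cases hy0 : y = 0
  · left; rw [hy0, mul_zero]
  right
  rw [v.ord_mul' hx0 hy0]
  omega

theorem gmono {s t : ℤ} {x : K} (hx : ge v s x) (h : t ≤ s) : ge v t x :=
  hx.imp id fun h' => h.trans h'

theorem gzero (t : ℤ) : ge v t (0 : K) := Or.inl rfl

theorem gone : ge v 0 (1 : K) := Or.inr (by rw [v.ord_one])

theorem gconst (c : k) : ge v 0 (algebraMap k K c) := Or.inr (by rw [v.ord_base])

theorem gnat (n : ℕ) : ge v 0 (n : K) := Or.inr (v.ord_natCast_le n)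

theorem gord {x : K} : ge v (v.ord x) x := Or.inr le_rfl

theorem gsum {ι : Type*} (s : Finset ι) (f : ι → K) (t : ℤ) (h : ∀ i ∈ s, ge v t (f i)) :
    ge v t (∑ i ∈ s, f i) := by
  classical
  induction s using Finset.induction_on with
  | empty => exact gzero t
  | insert a s ha ih =>
    rw [Finset.sum_insert ha]
    exact gadd (h a (Finset.mem_insert_self _ _))
      (ih fun i hi => h i (Finset.mem_insert_of_mem hi))

theorem pe_nonneg (τ : K) : 0 ≤ pe v τ := le_max_left _ _

theorem neg_ord_le_pe (τ : K) : -(v.ord τ) ≤ pe v τ := le_max_right _ _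

theorem gpow (τ : K) (i : ℕ) : ge v (-(i * pe v τ)) (τ ^ i) := by
  right
  rw [v.ord_pow]
  have h1 := neg_ord_le_pe (v := v) τ
  have h2 : (0 : ℤ) ≤ i := Int.natCast_nonneg _
  nlinarith

/-! ### bounds of the coefficients -/

theorem cadd {m : ℤ} {p q : K[X]} (hp : Cge v m p) (hq : Cge v m q) : Cge v m (p + q) := fun i => by
  rw [coeff_add]; exact gadd (hp i) (hq i)

theorem csub {m : ℤ} {p q : K[X]} (hp : Cge v m p) (hq : Cge v m q) : Cge v m (p - q) := fun i => by
  rw [coeff_sub]; exact gsub (hp i) (hq i)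

theorem cneg {m : ℤ} {p : K[X]} (hp : Cge v m p) : Cge v m (-p) := fun i => by
  rw [coeff_neg]; exact gneg (hp i)

theorem cmul {m m' : ℤ} {p q : K[X]} (hp : Cge v m p) (hq : Cge v m' q) :
    Cge v (m + m') (p * q) := fun i => by
  rw [coeff_mul]
  exact gsum _ _ _ fun x _ => gmul (hp _) (hq _)

theorem cmono {m m' : ℤ} {p : K[X]} (hp : Cge v m p) (h : m' ≤ m) : Cge v m' p := fun i =>
  gmono (hp i) h

theorem cC {m : ℤ} {c : K} (hc : ge v m c) : Cge v m (C c) := fun i => by
  rw [coeff_C]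
  split_ifs
  · exact hc
  · exact gzero _

theorem cnat (n : ℕ) : Cge v 0 ((n : ℕ) : K[X]) := by
  have h : ((n : ℕ) : K[X]) = C (n : K) := by simp
  rw [h]
  exact cC (gnat n)

theorem cone : Cge v 0 (1 : K[X]) := by
  rw [← C_1]
  exact cC gone

theorem cder {m : ℤ} {p : K[X]} (hp : Cge v m p) : Cge v m (derivative p) := fun i => by
  rw [coeff_derivative]
  have h1 : ge v (m + 0) (p.coeff (i + 1) * ((i + 1 : ℕ) : K)) := gmul (hp _) (gnat _)
  rw [add_zero] at h1
  push_cast at h1
  exact h1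

theorem cpow {m : ℤ} {p : K[X]} (hp : Cge v m p) (n : ℕ) : Cge v (n * m) (p ^ n) := by
  induction n with
  | zero => simpa using (cone : Cge v 0 (1 : K[X]))
  | succ n ih =>
    rw [pow_succ]
    refine cmono (cmul ih hp) (le_of_eq ?_)
    push_cast
    ring

end Pool.Agent.H22.VGH
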