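import Pool.Agent.H30.VGH.Targets

/-! Row TWI of the board `vgh_modules`: change of the points on a line. -/

set_option autoImplicit false

namespace Pool.Agent.H22.VGH

open Pool.Agent.H30.VGH

theorem pf_TWI : T_TWI := by
  intro L _ n d F x y x' y' a b c e hx hy hΔ hT
  obtain ⟨a0, b0, l, m, hab, hlm⟩ := hT
  obtain ⟨Δ, hΔe⟩ : ∃ Δ : L, Δ = a * e - b * c := ⟨_, rfl⟩
  rw [← hΔe] at hΔ
  refine ⟨a0, b0,
    ![(l 0 * e - l 1 * b) / Δ, (l 1 * a - l 0 * c) / Δ],
    ![(m 0 * e - m 1 * b) / Δ, (m 1 * a - m 0 * c) / Δ], hab, ?_⟩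
  intro s t
  have h1 : lpt x' y' s t = lpt x y ((s * e - t * c) / Δ) ((a * t - b * s) / Δ) := by
    funext i
    rw [hx, hy]
    simp only [lpt]
    field_simp
    linear_combination (s * x' i + t * y' i) * hΔe
  rw [h1, hlm]
  simp only [Matrix.cons_val_zero, Matrix.cons_val_one]
  congr 2
  · field_simp
    ring
  · field_simp
    ring

end Pool.Agent.H22.VGH
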